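import Pool.Agent.Work.MP_96dc1b_co.Upper

namespace Pool.Agent.Work.MP_96dc1b_co.Parked

open Pool.Agent.Work.MP_96dc1b_co

/-- The largest `r`-dynamic chromatic number of a graph of treewidth at most `k` has order
`r √k + k`. -/
theorem sharpOrder (k r : ℕ) (hk : 1 ≤ k) (hr : 1 ≤ r) :
    (∀ (V : Type) [Fintype V] (G : SimpleGraph V), treewidth G ≤ k →
      (chiDyn G r : ℝ) ≤ 7 * (r * √(k : ℝ) + k)) ∧
    ∃ (V : Type) (_ : Fintype V) (G : SimpleGraph V), treewidth G ≤ k ∧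
      (r * √(k : ℝ) + k) / 12 ≤ (chiDyn G r : ℝ) := by
  have hk1 : (1 : ℝ) ≤ k := by exact_mod_cast hk
  have hr1 : (1 : ℝ) ≤ r := by exact_mod_cast hr
  have hs1 : 1 ≤ √(k : ℝ) := Real.one_le_sqrt.2 hk1
  have hsq : √(k : ℝ) * √(k : ℝ) = k := Real.mul_self_sqrt (by positivity)
  constructor
  · intro V _ G hG
    have hpos : (0 : ℝ) < 2 * (r * √(k : ℝ)) := by positivity
    have hle : 2 * (r * √(k : ℝ)) ≤ ⌈2 * (r * √(k : ℝ))⌉₊ := Nat.le_ceil _
    have hlt : (⌈2 * (r * √(k : ℝ))⌉₊ : ℝ) < 2 * (r * √(k : ℝ)) + 1 :=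
      Nat.ceil_lt_add_one hpos.le
    have hmr : (k + 1) * r ^ 2 ≤ ⌈2 * (r * √(k : ℝ))⌉₊ * ⌈2 * (r * √(k : ℝ))⌉₊ := by
      have h1 : (2 * (r * √(k : ℝ))) * (2 * (r * √(k : ℝ))) = 4 * k * (r : ℝ) ^ 2 := by
        linear_combination (4 * (r : ℝ) ^ 2) * hsq
      have h2 := mul_le_mul hle hle hpos.le (Nat.cast_nonneg _)
      have h3 : ((k : ℝ) + 1) * (r : ℝ) ^ 2 ≤ 4 * k * (r : ℝ) ^ 2 :=
        mul_le_mul_of_nonneg_right (by linarith) (by positivity)
      exact_mod_cast h3.trans (h1 ▸ h2)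
    have h := chiDyn_le G hG (Nat.ceil_pos.2 hpos) hmr
    have h' : (chiDyn G r : ℝ) ≤ 3 * ⌈2 * (r * √(k : ℝ))⌉₊ + 2 * k + 2 := by exact_mod_cast h
    linarith
  · by_cases hc : r * √(k : ℝ) ≤ 11 * k
    · refine ⟨_, inferInstance, ⊤, treewidth_top k, ?_⟩
      have h : ((k + 1 : ℕ) : ℝ) ≤ chiDyn (⊤ : SimpleGraph (Fin (k + 1))) r := by
        exact_mod_cast le_chiDyn_top k r
      push_cast at h
      linarith
    · have hc' : 11 * (k : ℝ) < r * √(k : ℝ) := not_le.1 hc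
      have hr2 : 2 ≤ r := by
        by_contra h
        have : r = 1 := by omega
        subst this
        push_cast at hc'
        nlinarith
      have hn : 0 < Nat.sqrt k := Nat.sqrt_pos.2 hk
      refine ⟨_, inferInstance, hubGraph (Nat.sqrt k) (r / 2),
        (treewidth_le _ _ hn (by omega)).trans (Nat.sqrt_le k), ?_⟩
      have h1 : ((Nat.sqrt k * (r / 2) : ℕ) : ℝ) ≤ chiDyn (hubGraph (Nat.sqrt k) (r / 2)) r := by
        exact_mod_cast (le_chiDyn _ _).trans (chiDyn_mono _ (by omega))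
      have h2 : √(k : ℝ) ≤ 2 * (Nat.sqrt k : ℝ) := by
        have h3 : (1 : ℝ) ≤ Nat.sqrt k := by exact_mod_cast hn
        have h4 := Real.real_sqrt_le_nat_sqrt_succ (a := k)
        linarith
      have h3 : (r : ℝ) ≤ 3 * ((r / 2 : ℕ) : ℝ) := by
        have : r ≤ 3 * (r / 2) := by omega
        exact_mod_cast this
      have h4 := mul_le_mul h3 h2 (by positivity) (by positivity)
      rw [Nat.cast_mul] at h1
      nlinarith

end Pool.Agent.Work.MP_96dc1b_co.Parked
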